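import Pool.Agent.X247.SR.Incl

set_option autoImplicit false

/-!
# MP_e3bf5d_lc, Q1: the families `FSPDA_n` form a strict infinite hierarchy

`FSPDA_n ⊊ FSPDA_{n+1}` for every `n`.

Inclusion: a new first block of idle moves; the related pairs of labels check that the old turn
takes place at the end of the next block.

Strictness: let `L_m = {a₀ⁱ a₁ⁱ ⋯ a_{m-1}ⁱ : i ≥ 1}`. With `n` turns one accepts `L_{2n+2}` (block `j`
compares the letters `2j` and `2j + 1` with the pushdown, the equal lengths of the blocks do the
rest), but not `L_m` for `m ≥ 2n + 3`. For the latter the accepting computations (annotated with the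
block and with the greatest letter read so far) are the derivations of a finite grammar. By Dickson's
lemma there are two of them, for `i < i'`, where the second uses every production at least as often
as the first and no new productions. The difference is balanced and so is a sum of pumps, and each
pump reads at most two different letters. So one finds `n + 1` pumps that read a triangular system of
letters and one letter read by none of them; a nontrivial integer combination of these pumps keeps
all `n + 1` blocks at equal length (`n` linear equations), but it cannot change all letters by the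
same number. Adding it to a large multiple of the difference gives an accepted word not in `L_m`.
-/

namespace Pool.Agent.Results.MP_e3bf5d_lc.FspdaHierarchy

open Pool.Agent.X247.SR

/-- The family of languages (a finite alphabet together with a language over it) accepted by
`n`-turn first-move self-regulating pushdown automata. -/
def Fam (n : ℕ) : Set (Σ A : Type, Set (List A)) :=
  {x | Finite x.1 ∧ x.2 ∈ FSPDA x.1 n}

theorem result :
    (∀ n, Fam n ⊂ Fam (n + 1)) ∧
    (∀ n, Lm (2 * n + 2) ∈ FSPDA (Fin (2 * n + 2)) n) ∧
    (∀ n m, 2 * n + 3 ≤ m → Lm m ∉ FSPDA (Fin m) n) := by
  refine ⟨?_, upper, lower⟩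
  intro n
  have hsub : Fam n ⊆ Fam (n + 1) := fun x hx => ⟨hx.1, incl x.1 n hx.2⟩
  rw [Set.ssubset_iff_of_subset hsub]
  refine ⟨⟨Fin (2 * (n + 1) + 2), Lm (2 * (n + 1) + 2)⟩, ⟨inferInstanceAs (Finite (Fin _)),
    upper (n + 1)⟩, ?_⟩
  rintro ⟨_, h⟩
  exact lower n _ (by omega) h

end Pool.Agent.Results.MP_e3bf5d_lc.FspdaHierarchy
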